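import Mathlib
import Pool.Agent.Y425.XTwoY

set_option autoImplicit false

/-!
# Partition regularity of `x - 2 y = p(z)`

The equation is partition regular iff `p = X`, or `p = -2 X`, or it has a constant solution
(`p(n) = -n` for some positive integer `n`); if the solution is required to be nonconstant, iff
`p` is one of `X`, `-X`, `-2 X`.
-/

namespace Pool.Agent.Results.MP_0ef770_co.Classification

open Polynomial Pool.Agent.Y425.XTwoY

/-- every colouring of the positive integers with finitely many colours has a monochromatic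
solution of `x - 2 y = p(z)` in positive integers -/
def PartitionRegular (p : ℤ[X]) : Prop :=
  ∀ (r : ℕ) (c : ℕ → Fin r), ∃ x y z : ℕ, 0 < x ∧ 0 < y ∧ 0 < z ∧
    (x : ℤ) - 2 * y = p.eval (z : ℤ) ∧ c x = c y ∧ c y = c z

/-- the same, with a solution for which `x`, `y`, `z` are not all equal -/
def PartitionRegularNonconstant (p : ℤ[X]) : Prop :=
  ∀ (r : ℕ) (c : ℕ → Fin r), ∃ x y z : ℕ, 0 < x ∧ 0 < y ∧ 0 < z ∧
    (x : ℤ) - 2 * y = p.eval (z : ℤ) ∧ c x = c y ∧ c y = c z ∧ ¬ (x = y ∧ y = z)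

/-- Let `p` be a polynomial with integer coefficients and `p 0 = 0`. The equation
`x - 2 y = p(z)` is partition regular iff `p = X` or `p = -2 X` or `p n = - n` for some positive
integer `n`. It is partition regular with nonconstant solutions iff `p` is `X`, `-X` or `-2 X`. -/
theorem result (p : ℤ[X]) (hp : p.eval 0 = 0) :
    (PartitionRegular p ↔ p = X ∨ p = -2 * X ∨ ∃ n : ℕ, 0 < n ∧ p.eval (n : ℤ) = -n) ∧
    (PartitionRegularNonconstant p ↔ p = X ∨ p = -X ∨ p = -2 * X) := by
  have hneg : p ≠ X → p ≠ -X → p ≠ -2 * X → ∃ (r : ℕ) (c : ℕ → Fin r), ∀ x y z : ℕ,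
      0 < x → 0 < y → 0 < z → (x : ℤ) - 2 * y = p.eval (z : ℤ) → c x = c y → c y = c z →
        x = y ∧ y = z := by
    intro h1 h2 h3
    obtain ⟨κ, _, c, hc⟩ := onlyConst p hp h1 h2 h3
    obtain ⟨r, ⟨e⟩⟩ := Finite.exists_equiv_fin κ
    exact ⟨r, fun n => e (c n), fun x y z hx hy hz h hxy hyz =>
      hc x y z hx hy hz h (e.injective hxy) (e.injective hyz)⟩
  constructor
  · constructor
    · intro hPR
      by_contra hcon
      push Not at hcon
      obtain ⟨h1, h3, h4⟩ := hcon
      have h2 : p ≠ -X := by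
        intro h
        apply h4 1 one_pos
        rw [h, eval_neg, eval_X]
      obtain ⟨r, c, hc⟩ := hneg h1 h2 h3
      obtain ⟨x, y, z, hx, hy, hz, heq, hxy, hyz⟩ := hPR r c
      obtain ⟨rfl, rfl⟩ := hc x y z hx hy hz heq hxy hyz
      apply h4 x hx
      rw [← heq]
      ring
    · rintro (h | h | ⟨n, hn, h⟩) r c
      · obtain ⟨x, y, z, hx, hy, hz, heq, hxy, hyz, -⟩ := pos_X r c
        exact ⟨x, y, z, hx, hy, hz, by rw [heq, h], hxy, hyz⟩
      · obtain ⟨x, y, z, hx, hy, hz, heq, hxy, hyz, -⟩ := pos_neg2X r c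
        exact ⟨x, y, z, hx, hy, hz, by rw [heq, h], hxy, hyz⟩
      · exact ⟨n, n, n, hn, hn, hn, by rw [h]; ring, rfl, rfl⟩
  · constructor
    · intro hPR
      by_contra hcon
      push Not at hcon
      obtain ⟨h1, h2, h3⟩ := hcon
      obtain ⟨r, c, hc⟩ := hneg h1 h2 h3
      obtain ⟨x, y, z, hx, hy, hz, heq, hxy, hyz, hne⟩ := hPR r c
      exact hne (hc x y z hx hy hz heq hxy hyz)
    · rintro (h | h | h) r c
      · rw [h]; exact pos_X r c
      · rw [h]; exact pos_negX r c
      · rw [h]; exact pos_neg2X r c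

end Pool.Agent.Results.MP_0ef770_co.Classification
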